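import Pool.Agent.H94.EH.M52
import Pool.Agent.H94.EH.M55
import Pool.Agent.H94.EH.M57

/-!
# L1 SelJ: selections of residues, all moduli up to `x/(log x)^D`, and disjoint sets

`level_sel`: `sel_all` (project MS, helper65) for `q ≤ x^θ`, `θ = max(9/10, 1-ε)`, and `selN` for the
dyadic blocks above.  `level_sets`: `exc` (project MS) with `Z = H/(log x)^C`.
-/

set_option autoImplicit false

namespace Pool.Agent.H91.L1

open Finset
open Pool.Agent.H91.EHA (Lam lamR hR psiA err)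
open Pool.Agent.H65.MS (MM MM_all sel_all Bad exc)

/-- constants are smaller than powers -/
private theorem selJ_large (κ : ℝ) (hκ : 0 < κ) (K : ℝ) : ∃ x0 : ℕ, ∀ x : ℕ, x0 ≤ x →
    K ≤ (x : ℝ) ^ κ := by
  obtain ⟨x1, hx1⟩ := Pool.Agent.H91.EHA.log_pow_le_rpow 1 κ hκ
  obtain ⟨x2, hx2⟩ := Pool.Agent.H91.EHA.log_ge K
  refine ⟨max x1 x2, fun x hx => ?_⟩
  have h1 := hx1 x (le_trans (le_max_left _ _) hx)
  have h2 := hx2 x (le_trans (le_max_right _ _) hx)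
  rw [pow_one] at h1
  exact h2.trans h1

/-- number of dyadic blocks -/
private theorem selJ_J (x : ℕ) (hx : 3 ≤ x) (L : ℝ) (hL : L = Real.log x) (hL4 : 4 ≤ L) :
    ((Nat.log 2 x + 1 : ℕ) : ℝ) ≤ L ^ 2 := by
  have h1 : ((Nat.log 2 x : ℕ) : ℝ) * Real.log 2 ≤ L := by
    have h2 : (2 : ℝ) ^ (Nat.log 2 x) ≤ x := by
      exact_mod_cast Nat.pow_log_le_self 2 (by omega : x ≠ 0)
    have h3 := Real.log_le_log (by positivity) h2
    rwa [Real.log_pow, ← hL] at h3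
  have h2 := Real.log_two_gt_d9
  have h4 : (0 : ℝ) ≤ ((Nat.log 2 x : ℕ) : ℝ) := by positivity
  have h3 : ((Nat.log 2 x : ℕ) : ℝ) ≤ 2 * L := by
    nlinarith only [h1, h2, h4]
  push_cast
  nlinarith only [h3, hL4]

/-- `7/6 + 3 e` from the condition on `q` -/
private theorem selJ_key (x H : ℕ) (q Q : ℝ) (e ε : ℝ) (hε : 0 < ε) (he1 : e ≤ ε / 6)
    (he2 : e ≤ 1 / 100) (hx : 3 ≤ x) (hH : 0 < (H : ℝ))
    (h4e : (4 : ℝ) ≤ (x : ℝ) ^ (ε / 2)) (h4h : (4 : ℝ) ≤ (x : ℝ) ^ (1 / 100 : ℝ))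
    (hqQ : q ≤ 2 * Q) (hq0 : 0 < q) (hq9 : (x : ℝ) ^ (9 / 10 : ℝ) < q)
    (hqε : (x : ℝ) ^ (1 - ε) < q)
    (hP : (x : ℝ) ^ (1 / 3 + ε) ≤ H ∨ q ^ 2 ≤ H * (x : ℝ) ^ (1 - ε) ∨
          ((x : ℝ) ^ (1 + ε) ≤ q * H ∧ q ≤ (x : ℝ) ^ (1 - ε)) ∨
          (x : ℝ) ^ (7 / 6 + ε) ≤ q * H) :
    (x : ℝ) ^ (7 / 6 + 3 * e) ≤ Q * H := by
  have hx3 : (3 : ℝ) ≤ x := by exact_mod_cast hx
  have hxpos : (0 : ℝ) < x := by linarith only [hx3]
  have hxone : (1 : ℝ) ≤ x := by linarith only [hx3]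
  have hpos : (0 : ℝ) < (x : ℝ) ^ (7 / 6 + 3 * e) := by positivity
  have h6 : q * H ≤ 2 * Q * H := mul_le_mul_of_nonneg_right hqQ hH.le
  have key : (x : ℝ) ^ (7 / 6 + ε) ≤ q * H → (x : ℝ) ^ (7 / 6 + 3 * e) ≤ Q * H := by
    intro h
    have h5 : (x : ℝ) ^ (7 / 6 + 3 * e) * 4 ≤ (x : ℝ) ^ (7 / 6 + ε) := by
      calc (x : ℝ) ^ (7 / 6 + 3 * e) * 4
          ≤ (x : ℝ) ^ (7 / 6 + 3 * e) * (x : ℝ) ^ (ε / 2) :=
            mul_le_mul_of_nonneg_left h4e (by positivity)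
        _ = (x : ℝ) ^ (7 / 6 + 3 * e + ε / 2) := by rw [← Real.rpow_add hxpos]
        _ ≤ _ := Real.rpow_le_rpow_of_exponent_le hxone (by linarith only [he1])
    linarith only [hpos, h6, h, h5]
  rcases hP with h | h | h | h
  · apply key
    calc (x : ℝ) ^ (7 / 6 + ε) ≤ (x : ℝ) ^ (9 / 10 + (1 / 3 + ε) : ℝ) :=
          Real.rpow_le_rpow_of_exponent_le hxone (by linarith only)
      _ = (x : ℝ) ^ (9 / 10 : ℝ) * (x : ℝ) ^ (1 / 3 + ε) := by rw [Real.rpow_add hxpos]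
      _ ≤ q * H := mul_le_mul hq9.le h (by positivity) hq0.le
  · have h5 : q ≤ H := by
      have h6 : q * (x : ℝ) ^ (1 - ε) ≤ H * (x : ℝ) ^ (1 - ε) := by
        refine le_trans ?_ h
        rw [sq]
        exact mul_le_mul_of_nonneg_left hqε.le hq0.le
      exact le_of_mul_le_mul_right h6 (by positivity)
    have h7 : (x : ℝ) ^ (9 / 10 + 9 / 10 : ℝ) ≤ q * H := by
      rw [Real.rpow_add hxpos]
      exact mul_le_mul hq9.le (hq9.le.trans h5) (by positivity) hq0.le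
    have h8 : (x : ℝ) ^ (7 / 6 + 3 * e) * 4 ≤ (x : ℝ) ^ (9 / 10 + 9 / 10 : ℝ) := by
      calc (x : ℝ) ^ (7 / 6 + 3 * e) * 4
          ≤ (x : ℝ) ^ (7 / 6 + 3 * e) * (x : ℝ) ^ (1 / 100 : ℝ) :=
            mul_le_mul_of_nonneg_left h4h (by positivity)
        _ = (x : ℝ) ^ (7 / 6 + 3 * e + 1 / 100) := by rw [← Real.rpow_add hxpos]
        _ ≤ _ := Real.rpow_le_rpow_of_exponent_le hxone (by linarith only [he2])
    linarith only [hpos, h6, h7, h8]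
  · exact absurd h.2 (not_le.2 hqε)
  · exact key h

/-- selections of residues, all moduli up to `x/(log x)^D`, one `y` for all `(q, a)` -/
theorem level_sel (hH : HuxProp) (ε : ℝ) (hε : 0 < ε) (c m : ℕ) : ∃ D x₀ : ℕ, ∀ x : ℕ, x₀ ≤ x →
    ∀ y H a₀ nb : ℕ, y ≤ x → a₀ + H ≤ x → (x : ℝ) ^ ε ≤ H → 1 ≤ nb →
      (H : ℝ) ≤ nb * Real.log x ^ m →
      ∀ S : ℕ → Finset ℕ, (∀ q, S q ⊆ Ioc a₀ (a₀ + H)) → (∀ q, (S q).card ≤ nb) →
      ∑ q ∈ (Icc 1 ⌊(x : ℝ) / Real.log x ^ D⌋₊).filter (fun q : ℕ => (x : ℝ) ^ (1 / 3 + ε) ≤ H ∨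
          (q : ℝ) ^ 2 ≤ H * (x : ℝ) ^ (1 - ε) ∨
          ((x : ℝ) ^ (1 + ε) ≤ q * H ∧ (q : ℝ) ≤ (x : ℝ) ^ (1 - ε)) ∨
          (x : ℝ) ^ (7 / 6 + ε) ≤ q * H),
        ∑ a ∈ (S q).filter (fun a => Nat.Coprime a q), |err y q (a : ZMod q)|
          ≤ nb * x / Real.log x ^ c := by
  classical
  set e : ℝ := min (ε / 6) (1 / 100) with he
  have he0 : 0 < e := lt_min (by linarith only [hε]) (by norm_num)
  have he1 : e ≤ ε / 6 := min_le_left _ _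
  have he2 : e ≤ 1 / 100 := min_le_right _ _
  set θ : ℝ := max (9 / 10) (1 - ε) with hθd
  have hθ : θ < 1 := max_lt (by norm_num) (by linarith only [he0, he1])
  have hθ1 : (9 / 10 : ℝ) ≤ θ := le_max_left _ _
  have hθ2 : 1 - ε ≤ θ := le_max_right _ _
  obtain ⟨D, x1, hx1⟩ := selN hH e he0 he2 (c + 3) m
  obtain ⟨c', hc', hs⟩ := sel_all θ ε hθ hε
  obtain ⟨x2, hx2⟩ := hs (c + 1)
  obtain ⟨x3, hx3⟩ := Pool.Agent.H91.EHA.log_ge 4
  obtain ⟨x4, hx4⟩ := selJ_large (min (ε / 2) (1 / 100)) (lt_min (by linarith only [he0, he1]) (by norm_num)) 4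
  obtain ⟨x5, hx5⟩ := Pool.Agent.H91.EHA.log_pow_le_rpow m c' hc'
  refine ⟨D, max (max (max x1 x2) (max x3 x4)) (max x5 3),
    fun x hx y H a0 nb hy haH hHε hnb1 hnb S hS hSc => ?_⟩
  have i1 : x1 ≤ x := le_trans (le_trans (le_trans (le_max_left _ _) (le_max_left _ _))
    (le_max_left _ _)) hx
  have i2 : x2 ≤ x := le_trans (le_trans (le_trans (le_max_right _ _) (le_max_left _ _))
    (le_max_left _ _)) hx
  have i3 : x3 ≤ x := le_trans (le_trans (le_trans (le_max_left _ _) (le_max_right _ _))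
    (le_max_left _ _)) hx
  have i4 : x4 ≤ x := le_trans (le_trans (le_trans (le_max_right _ _) (le_max_right _ _))
    (le_max_left _ _)) hx
  have i6 : x5 ≤ x := le_trans (le_trans (le_max_left _ _) (le_max_right _ _)) hx
  have i5 : 3 ≤ x := le_trans (le_trans (le_max_right _ _) (le_max_right _ _)) hx
  have hx3' : (3 : ℝ) ≤ x := by exact_mod_cast i5
  have hxpos : (0 : ℝ) < x := by linarith only [he0, he2, hx3']
  have hxone : (1 : ℝ) ≤ x := by linarith only [he0, he2, hx3']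
  have hL4 := hx3 x i3
  have h4x := hx4 x i4
  have h4e : (4 : ℝ) ≤ (x : ℝ) ^ (ε / 2) :=
    h4x.trans (Real.rpow_le_rpow_of_exponent_le hxone (min_le_left _ _))
  have h4h : (4 : ℝ) ≤ (x : ℝ) ^ (1 / 100 : ℝ) :=
    h4x.trans (Real.rpow_le_rpow_of_exponent_le hxone (min_le_right _ _))
  have hLc := hx5 x i6
  set L : ℝ := Real.log x with hL
  have hLpos : 0 < L := by linarith only [he0, he2, hL4]
  have hL1 : 1 ≤ L := by linarith only [he0, he2, hL4]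
  have hH1r : (1 : ℝ) ≤ H := le_trans (Real.one_le_rpow hxone hε.le) hHε
  have hHpos : (0 : ℝ) < H := by linarith only [he0, he2, hH1r]
  set M : ℕ := ⌊(x : ℝ) / L ^ D⌋₊ with hM
  set J : ℕ := Nat.log 2 x + 1 with hJ
  have hMr : (M : ℝ) ≤ (x : ℝ) / L ^ D := Nat.floor_le (by positivity)
  have hMx : M ≤ x := by
    have : (M : ℝ) ≤ x := by
      refine hMr.trans ?_
      exact div_le_self hxpos.le (one_le_pow₀ hL1)
    exact_mod_cast this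
  have hMJ : M < 2 ^ J := lt_of_le_of_lt hMx (Nat.lt_pow_succ_log_self (by norm_num) x)
  set F : ℕ → ℝ := fun q => ∑ a ∈ (S q).filter (fun a => Nat.Coprime a q),
      |err y q (a : ZMod q)| with hF
  have hF0 : ∀ q, 0 ≤ F q := fun q => Finset.sum_nonneg fun a _ => abs_nonneg _
  have hdy := Pool.Agent.H91.EHA.dyadic_cover F hF0 M J hMJ
    (fun q : ℕ => (x : ℝ) ^ θ < q ∧ ((x : ℝ) ^ (1 / 3 + ε) ≤ H ∨
          (q : ℝ) ^ 2 ≤ H * (x : ℝ) ^ (1 - ε) ∨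
          ((x : ℝ) ^ (1 + ε) ≤ q * H ∧ (q : ℝ) ≤ (x : ℝ) ^ (1 - ε)) ∨
          (x : ℝ) ^ (7 / 6 + ε) ≤ q * H))
    (by
      apply Finset.sum_eq_zero
      intro a _
      rw [Pool.Agent.H91.EHA.err_one, abs_zero]) (nb * x / L ^ (c + 3)) (by positivity)
    (by
      intro j _ q hqM hqP hjq hqj
      obtain ⟨hqθ, hqP⟩ := hqP
      set Q : ℕ := 2 ^ j with hQd
      have hQ1 : 1 ≤ Q := Nat.one_le_two_pow
      have hQ0 : (0 : ℝ) < Q := by exact_mod_cast hQ1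
      have hjq' : (Q : ℝ) < q := by exact_mod_cast hjq
      have hqj' : (q : ℝ) ≤ 2 * (Q : ℝ) := by
        have : q ≤ 2 * Q := by
          rw [pow_succ] at hqj
          omega
        exact_mod_cast this
      have hq0 : (0 : ℝ) < q := by linarith only [hQ0, hjq']
      have hqM' : (q : ℝ) ≤ (x : ℝ) / L ^ D := by
        refine le_trans ?_ hMr
        exact_mod_cast hqM
      have hq9 : (x : ℝ) ^ (9 / 10 : ℝ) < q :=
        lt_of_le_of_lt (Real.rpow_le_rpow_of_exponent_le hxone hθ1) hqθ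
      have hqε : (x : ℝ) ^ (1 - ε) < q :=
        lt_of_le_of_lt (Real.rpow_le_rpow_of_exponent_le hxone hθ2) hqθ
      have hQ34 : (x : ℝ) ^ (3 / 4 : ℝ) ≤ Q := by
        have h5 : (x : ℝ) ^ (3 / 4 : ℝ) * 4 ≤ (x : ℝ) ^ (9 / 10 : ℝ) := by
          calc (x : ℝ) ^ (3 / 4 : ℝ) * 4 ≤ (x : ℝ) ^ (3 / 4 : ℝ) * (x : ℝ) ^ (1 / 100 : ℝ) :=
                mul_le_mul_of_nonneg_left h4h (by positivity)
            _ = (x : ℝ) ^ (3 / 4 + 1 / 100 : ℝ) := by rw [← Real.rpow_add hxpos]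
            _ ≤ _ := Real.rpow_le_rpow_of_exponent_le hxone (by norm_num)
        have h6 : (0 : ℝ) < (x : ℝ) ^ (3 / 4 : ℝ) := by positivity
        linarith only [hQ0, hqj', hq9, h5]
      have hQC : (Q : ℝ) * L ^ D ≤ x := by
        have h5 := (le_div_iff₀ (by positivity)).1 hqM'
        refine le_trans ?_ h5
        exact mul_le_mul_of_nonneg_right hjq'.le (by positivity)
      exact hx1 x i1 a0 Q H nb (fun _ _ => y) S (fun _ _ => hy) haH hQ34 hQC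
        (selJ_key x H q Q e ε hε he1 he2 i5 hHpos h4e h4h hqj' hq0 hq9 hqε hqP) hS hSc hnb)
  have hJL : (J : ℝ) ≤ L ^ 2 := selJ_J x i5 L hL hL4
  have hnew : (J : ℝ) * (nb * x / L ^ (c + 3)) ≤ nb * x / L ^ (c + 1) := by
    calc (J : ℝ) * (nb * x / L ^ (c + 3)) ≤ L ^ 2 * (nb * x / L ^ (c + 3)) := by
          apply mul_le_mul_of_nonneg_right hJL (by positivity)
      _ = nb * x / L ^ (c + 1) := by
          have : L ^ (c + 3) = L ^ 2 * L ^ (c + 1) := by ring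
          rw [this]
          field_simp
  have hold : ∑ q ∈ MM θ ε x H, F q ≤ nb * x / L ^ (c + 1) := by
    refine hx2 x i2 y H a0 nb hy (by omega) (by omega) hnb1 ?_ S hS hSc
    refine hnb.trans ?_
    exact mul_le_mul_of_nonneg_left hLc (by positivity)
  have hsub : (Icc 1 M).filter (fun q : ℕ => (x : ℝ) ^ (1 / 3 + ε) ≤ H ∨
          (q : ℝ) ^ 2 ≤ H * (x : ℝ) ^ (1 - ε) ∨
          ((x : ℝ) ^ (1 + ε) ≤ q * H ∧ (q : ℝ) ≤ (x : ℝ) ^ (1 - ε)) ∨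
          (x : ℝ) ^ (7 / 6 + ε) ≤ q * H)
      ⊆ MM θ ε x H ∪ (Icc 1 M).filter (fun q : ℕ => (x : ℝ) ^ θ < q ∧
          ((x : ℝ) ^ (1 / 3 + ε) ≤ H ∨
          (q : ℝ) ^ 2 ≤ H * (x : ℝ) ^ (1 - ε) ∨
          ((x : ℝ) ^ (1 + ε) ≤ q * H ∧ (q : ℝ) ≤ (x : ℝ) ^ (1 - ε)) ∨
          (x : ℝ) ^ (7 / 6 + ε) ≤ q * H)) := by
    intro q hq
    rw [mem_filter] at hq
    rw [mem_union]
    by_cases hqθ : (x : ℝ) ^ θ < q
    · right
      rw [mem_filter]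
      exact ⟨hq.1, hqθ, hq.2⟩
    · left
      push Not at hqθ
      have hqI : q ∈ Icc 1 ⌊(x : ℝ) ^ θ⌋₊ := by
        rw [mem_Icc]
        exact ⟨(mem_Icc.1 hq.1).1, Nat.le_floor hqθ⟩
      rcases hq.2 with h | h | h | h
      · rw [MM_all θ ε hε x H (by omega) h]
        exact hqI
      · unfold MM
        rw [mem_filter]
        exact ⟨hqI, Or.inl h⟩
      · unfold MM
        rw [mem_filter]
        exact ⟨hqI, Or.inr h.1⟩
      · unfold MM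
        rw [mem_filter]
        refine ⟨hqI, Or.inr (le_trans ?_ h)⟩
        exact Real.rpow_le_rpow_of_exponent_le hxone (by linarith only [he0, he2])
  calc ∑ q ∈ (Icc 1 M).filter (fun q : ℕ => (x : ℝ) ^ (1 / 3 + ε) ≤ H ∨
          (q : ℝ) ^ 2 ≤ H * (x : ℝ) ^ (1 - ε) ∨
          ((x : ℝ) ^ (1 + ε) ≤ q * H ∧ (q : ℝ) ≤ (x : ℝ) ^ (1 - ε)) ∨
          (x : ℝ) ^ (7 / 6 + ε) ≤ q * H), F q
      ≤ ∑ q ∈ MM θ ε x H ∪ (Icc 1 M).filter (fun q : ℕ => (x : ℝ) ^ θ < q ∧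
          ((x : ℝ) ^ (1 / 3 + ε) ≤ H ∨
          (q : ℝ) ^ 2 ≤ H * (x : ℝ) ^ (1 - ε) ∨
          ((x : ℝ) ^ (1 + ε) ≤ q * H ∧ (q : ℝ) ≤ (x : ℝ) ^ (1 - ε)) ∨
          (x : ℝ) ^ (7 / 6 + ε) ≤ q * H)), F q :=
        sum_le_sum_of_subset_of_nonneg hsub fun q _ _ => hF0 q
    _ ≤ ∑ q ∈ MM θ ε x H, F q + ∑ q ∈ (Icc 1 M).filter (fun q : ℕ => (x : ℝ) ^ θ < q ∧
          ((x : ℝ) ^ (1 / 3 + ε) ≤ H ∨
          (q : ℝ) ^ 2 ≤ H * (x : ℝ) ^ (1 - ε) ∨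
          ((x : ℝ) ^ (1 + ε) ≤ q * H ∧ (q : ℝ) ≤ (x : ℝ) ^ (1 - ε)) ∨
          (x : ℝ) ^ (7 / 6 + ε) ≤ q * H)), F q := by
        rw [← sum_union_inter]
        have : (0 : ℝ) ≤ ∑ q ∈ MM θ ε x H ∩ (Icc 1 M).filter (fun q : ℕ => (x : ℝ) ^ θ < q ∧
          ((x : ℝ) ^ (1 / 3 + ε) ≤ H ∨
          (q : ℝ) ^ 2 ≤ H * (x : ℝ) ^ (1 - ε) ∨
          ((x : ℝ) ^ (1 + ε) ≤ q * H ∧ (q : ℝ) ≤ (x : ℝ) ^ (1 - ε)) ∨
          (x : ℝ) ^ (7 / 6 + ε) ≤ q * H)), F q := sum_nonneg fun q _ => hF0 q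
        linarith only [this]
    _ ≤ nb * x / L ^ (c + 1) + nb * x / L ^ (c + 1) := by
        refine add_le_add hold ?_
        exact hdy.trans hnew
    _ ≤ nb * x / L ^ c := by
        have h1 : nb * x / L ^ (c + 1) = nb * x / L ^ c / L := by
          rw [pow_succ]
          field_simp
        have h2 : (0 : ℝ) ≤ nb * x / L ^ c := by positivity
        rw [h1, ← two_mul, mul_div_assoc', div_le_iff₀ hLpos]
        nlinarith only [h2, hL4]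

/-- disjoint sets, all moduli up to `x/(log x)^D` -/
theorem level_sets (hH : HuxProp) (ε : ℝ) (hε : 0 < ε) (C : ℕ) : ∃ D x₀ : ℕ, ∀ x : ℕ, x₀ ≤ x →
    ∀ a₀ H : ℕ, (x : ℝ) ^ ε ≤ H → a₀ + H ≤ x →
      ∀ F : Finset (Finset ℕ), (∀ A ∈ F, A ⊆ Ioc a₀ (a₀ + H)) →
        (∀ A ∈ F, ∀ B ∈ F, A ≠ B → Disjoint A B) →
        ((Bad x C ((Icc 1 ⌊(x : ℝ) / Real.log x ^ D⌋₊).filter
          (fun q : ℕ => (x : ℝ) ^ (1 / 3 + ε) ≤ H ∨
          (q : ℝ) ^ 2 ≤ H * (x : ℝ) ^ (1 - ε) ∨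
          ((x : ℝ) ^ (1 + ε) ≤ q * H ∧ (q : ℝ) ≤ (x : ℝ) ^ (1 - ε)) ∨
          (x : ℝ) ^ (7 / 6 + ε) ≤ q * H)) F).card : ℝ) ≤ H / Real.log x ^ C := by
  classical
  obtain ⟨D, x1, hx1⟩ := level_sel hH ε hε (2 * C + 6) C
  obtain ⟨x2, hx2⟩ := exc C
  obtain ⟨x3, hx3⟩ := Pool.Agent.H91.EHA.log_ge 4
  refine ⟨D, max (max x1 x2) (max x3 3), fun x hx a0 H hHε haH F hF hd => ?_⟩
  have i1 : x1 ≤ x := le_trans (le_trans (le_max_left _ _) (le_max_left _ _)) hx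
  have i2 : x2 ≤ x := le_trans (le_trans (le_max_right _ _) (le_max_left _ _)) hx
  have i3 : x3 ≤ x := le_trans (le_trans (le_max_left _ _) (le_max_right _ _)) hx
  have i5 : 3 ≤ x := le_trans (le_trans (le_max_right _ _) (le_max_right _ _)) hx
  have hx3' : (3 : ℝ) ≤ x := by exact_mod_cast i5
  have hxpos : (0 : ℝ) < x := by linarith only [hx3']
  have hL4 := hx3 x i3
  have hL1 : (1 : ℝ) ≤ Real.log x := by linarith only [hL4]
  have hLp : (0 : ℝ) < Real.log x ^ C := by positivity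
  refine hx2 x i2 _ ?_ a0 H _ (by positivity) ?_ F hF hd
  · refine (filter_subset _ _).trans (Icc_subset_Icc_right ?_)
    have h1 : ((⌊(x : ℝ) / Real.log x ^ D⌋₊ : ℕ) : ℝ) ≤ x := by
      refine (Nat.floor_le (by positivity)).trans ?_
      exact div_le_self hxpos.le (one_le_pow₀ hL1)
    exact_mod_cast h1
  · intro nb hnb S hS hSc y hy
    have hnb0 : (0 : ℝ) < nb := lt_of_le_of_lt (by positivity) hnb
    have hnb1 : 1 ≤ nb := by exact_mod_cast hnb0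
    refine hx1 x i1 y H a0 nb hy haH hHε hnb1 ?_ S hS hSc
    rw [div_lt_iff₀ hLp] at hnb
    exact hnb.le

end Pool.Agent.H91.L1
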